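import Pool.Agent.MP_542436_nt.Abc.Defs

set_option autoImplicit false

namespace Pool.Agent.MP_542436_nt.H17

open Finset Pool.Agent.MP_542436_nt.Abc

/-- The property of a chosen factorisation. -/
def Fac (f : ℕ → Fin 7 → ℕ) : Prop :=
  ∀ n : ℕ, 0 < n → (∀ i, 0 < f n i) ∧ ∏ i, f n i ^ ex1 i = n ∧
    (∏ i, if i = 6 then rd (f n 6) else f n i) ≤ rd n ∧ rd (f n 6) ^ 7 ≤ f n 6

/-- The reduced product. -/
def W (f : ℕ → Fin 7 → ℕ) (n : ℕ) : ℕ := ∏ i, if i = 6 then rd (f n 6) else f n i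

/-- The ordering flag. -/
def fl (f : ℕ → Fin 7 → ℕ) (t : ℕ × ℕ × ℕ) : Bool :=
  decide (W f (max t.1 t.2.1) ≤ W f t.2.2)

/-- The three numbers in their order. -/
def NN (f : ℕ → Fin 7 → ℕ) (t : ℕ × ℕ × ℕ) : Fin 3 → ℕ :=
  ![min t.1 t.2.1, if fl f t then max t.1 t.2.1 else t.2.2,
    if fl f t then t.2.2 else max t.1 t.2.1]

/-- The factors. -/
def uu (f : ℕ → Fin 7 → ℕ) (t : ℕ × ℕ × ℕ) : Fin 3 → Fin 7 → ℕ := fun j => f (NN f t j)

/-- The dyadic class. -/
def key (f : ℕ → Fin 7 → ℕ) (t : ℕ × ℕ × ℕ) :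
    Bool × Bool × (Fin 3 → Fin 7 → ℕ) × (Fin 3 → ℕ) :=
  (decide (t.1 ≤ t.2.1), fl f t, fun j i => Nat.log 2 (uu f t j i),
    fun j => Nat.log 2 (rd (uu f t j 6)))

/-- The signs. -/
def sg (b : Bool) : Fin 3 → ℤ := ![1, if b then 1 else -1, if b then -1 else 1]

theorem rd_pos (n : ℕ) : 0 < rd n :=
  Finset.prod_pos (fun _ hp => (Nat.prime_of_mem_primeFactors hp).pos)

theorem rd_le {n : ℕ} (hn : 0 < n) : rd n ≤ n :=
  Nat.le_of_dvd hn (Nat.prod_primeFactors_dvd n)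

theorem rd_mul {m n : ℕ} (h : Nat.Coprime m n) : rd (m * n) = rd m * rd n := by
  unfold rd
  rw [h.primeFactors_mul, Finset.prod_union h.disjoint_primeFactors]

theorem mem_Tr {X : ℕ} {t : ℕ × ℕ × ℕ} (ht : t ∈ Tr X) :
    1 ≤ t.1 ∧ 1 ≤ t.2.1 ∧ t.2.2 ≤ X ∧ t.1 + t.2.1 = t.2.2 ∧ Nat.Coprime t.1 t.2.1 ∧
      rd (t.1 * t.2.1 * t.2.2) ≤ t.2.2 := by
  unfold Tr at ht
  simp only [Finset.mem_filter, Finset.mem_product, Finset.mem_Icc] at ht
  obtain ⟨⟨⟨h1, _⟩, ⟨h2, _⟩, ⟨_, h3⟩⟩, h4, h5, h6⟩ := ht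
  exact ⟨h1, h2, h3, h4, h5, h6⟩

theorem cop3 {a b c : ℕ} (h : a + b = c) (hab : Nat.Coprime a b) :
    Nat.Coprime (min a b) (max a b) ∧ Nat.Coprime (min a b) c ∧ Nat.Coprime (max a b) c := by
  subst h
  have h1 : Nat.Coprime a (a + b) := by simpa using hab
  have h2 : Nat.Coprime b (a + b) := by simpa using hab.symm
  rcases le_total a b with h | h
  · rw [min_eq_left h, max_eq_right h]; exact ⟨hab, h1, h2⟩
  · rw [min_eq_right h, max_eq_left h]; exact ⟨hab.symm, h2, h1⟩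

theorem NN_pos {X : ℕ} (f : ℕ → Fin 7 → ℕ) {t : ℕ × ℕ × ℕ} (ht : t ∈ Tr X) (j : Fin 3) :
    0 < NN f t j := by
  obtain ⟨h1, h2, _, h4, _, _⟩ := mem_Tr ht
  fin_cases j <;> simp only [NN] <;> cases fl f t <;> simp <;> omega

theorem NN_le {X : ℕ} (f : ℕ → Fin 7 → ℕ) {t : ℕ × ℕ × ℕ} (ht : t ∈ Tr X) (j : Fin 3) :
    NN f t j ≤ t.2.2 := by
  obtain ⟨h1, h2, _, h4, _, _⟩ := mem_Tr ht
  fin_cases j <;> simp only [NN] <;> cases fl f t <;> simp <;> omega

theorem NN_cop {X : ℕ} (f : ℕ → Fin 7 → ℕ) {t : ℕ × ℕ × ℕ} (ht : t ∈ Tr X) (j l : Fin 3)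
    (hjl : j ≠ l) : Nat.Coprime (NN f t j) (NN f t l) := by
  obtain ⟨_, _, _, h4, h5, _⟩ := mem_Tr ht
  obtain ⟨c1, c2, c3⟩ := cop3 h4 h5
  have d1 := c1.symm
  have d2 := c2.symm
  have d3 := c3.symm
  fin_cases j <;> fin_cases l <;> simp only [NN] <;> cases fl f t <;>
    first
    | exact absurd rfl hjl
    | simpa using c1
    | simpa using c2
    | simpa using c3
    | simpa using d1
    | simpa using d2
    | simpa using d3

theorem NN_eqn {X : ℕ} (f : ℕ → Fin 7 → ℕ) {t : ℕ × ℕ × ℕ} (ht : t ∈ Tr X) :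
    ∑ j, sg (fl f t) j * (NN f t j : ℤ) = 0 := by
  obtain ⟨_, _, _, h4, _, _⟩ := mem_Tr ht
  rw [Fin.sum_univ_three]
  simp only [NN, sg]
  cases fl f t <;> simp <;> omega

theorem NN_prod {X : ℕ} (f : ℕ → Fin 7 → ℕ) {t : ℕ × ℕ × ℕ} (ht : t ∈ Tr X) :
    rd (NN f t 0) * rd (NN f t 1) * rd (NN f t 2) ≤ t.2.2 := by
  obtain ⟨_, _, _, h4, h5, h6⟩ := mem_Tr ht
  have c01 := NN_cop f ht 0 1 (by decide)
  have c02 := NN_cop f ht 0 2 (by decide)
  have c12 := NN_cop f ht 1 2 (by decide)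
  rw [← rd_mul c01, ← rd_mul (Nat.Coprime.mul_left c02 c12)]
  have : NN f t 0 * NN f t 1 * NN f t 2 = t.1 * t.2.1 * t.2.2 := by
    have hm : min t.1 t.2.1 * max t.1 t.2.1 = t.1 * t.2.1 := min_mul_max _ _
    simp only [NN]
    cases fl f t
    · simp only [Matrix.cons_val_zero, Matrix.cons_val_one, Matrix.cons_val]
      simp only [Bool.false_eq_true, if_false]
      rw [← hm]; ring
    · simp only [Matrix.cons_val_zero, Matrix.cons_val_one, Matrix.cons_val]
      simp only [if_true]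
      rw [← hm]
  rw [this]; exact h6

theorem NN_sym (f : ℕ → Fin 7 → ℕ) (t : ℕ × ℕ × ℕ) : W f (NN f t 1) ≤ W f (NN f t 2) := by
  simp only [NN]
  by_cases h : W f (max t.1 t.2.1) ≤ W f t.2.2
  · have : fl f t = true := by simp [fl, h]
    simp [this, h]
  · have : fl f t = false := by simp only [fl]; exact decide_eq_false h
    simp only [this]
    simp
    omega

theorem nm_uu {X : ℕ} {f : ℕ → Fin 7 → ℕ} (hf : Fac f) {t : ℕ × ℕ × ℕ} (ht : t ∈ Tr X)
    (j : Fin 3) : nm (fun _ => ex1) (uu f t) j = NN f t j :=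
  (hf _ (NN_pos f ht j)).2.1

theorem uu_pos {X : ℕ} {f : ℕ → Fin 7 → ℕ} (hf : Fac f) {t : ℕ × ℕ × ℕ} (ht : t ∈ Tr X)
    (j : Fin 3) (i : Fin 7) : 0 < uu f t j i :=
  (hf _ (NN_pos f ht j)).1 i

theorem ex1_pos (i : Fin 7) : 0 < ex1 i := by fin_cases i <;> simp [ex1]

theorem ex1_le (i : Fin 7) : ex1 i ≤ 6 := by fin_cases i <;> simp [ex1]

theorem uu_le {X : ℕ} {f : ℕ → Fin 7 → ℕ} (hf : Fac f) {t : ℕ × ℕ × ℕ} (ht : t ∈ Tr X)
    (j : Fin 3) (i : Fin 7) : uu f t j i ≤ X := by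
  have h1 : uu f t j i ∣ NN f t j := by
    rw [← nm_uu hf ht j]
    exact (dvd_pow_self _ (ex1_pos i).ne').trans
      (Finset.dvd_prod_of_mem (fun i => uu f t j i ^ ex1 i) (Finset.mem_univ i))
  exact (Nat.le_of_dvd (NN_pos f ht j) h1).trans ((NN_le f ht j).trans (mem_Tr ht).2.2.1)

theorem inj_key {X : ℕ} {f : ℕ → Fin 7 → ℕ} (hf : Fac f) {t t' : ℕ × ℕ × ℕ} (ht : t ∈ Tr X)
    (ht' : t' ∈ Tr X) (hk : key f t = key f t') (hu : uu f t = uu f t') : t = t' := by
  have hN : ∀ j, NN f t j = NN f t' j := fun j => by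
    rw [← nm_uu hf ht j, ← nm_uu hf ht' j, hu]
  have k1 : decide (t.1 ≤ t.2.1) = decide (t'.1 ≤ t'.2.1) := congrArg Prod.fst hk
  have k2 : fl f t = fl f t' := congrArg (fun x => x.2.1) hk
  have k1' : t.1 ≤ t.2.1 ↔ t'.1 ≤ t'.2.1 := decide_eq_decide.mp k1
  have n0 := hN 0
  have n1 := hN 1
  have n2 := hN 2
  obtain ⟨_, _, _, h4, _, _⟩ := mem_Tr ht
  obtain ⟨_, _, _, h4', _, _⟩ := mem_Tr ht'
  simp only [NN, k2] at n0 n1 n2
  obtain ⟨a, b, c⟩ := t
  obtain ⟨a', b', c'⟩ := t'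
  simp only at h4 h4' k1'
  simp only [Prod.mk.injEq]
  generalize fl f (a', b', c') = β at n0 n1 n2
  cases β <;> simp at n0 n1 n2 <;> omega

/-- The set of all classes. -/
def KK (M : ℕ) : Finset (Bool × Bool × (Fin 3 → Fin 7 → ℕ) × (Fin 3 → ℕ)) :=
  univ ×ˢ univ ×ˢ (Fintype.piFinset (fun _ => Fintype.piFinset (fun _ => range (M + 1)))) ×ˢ
    (Fintype.piFinset (fun _ => range (M + 1)))

theorem card_KK (M : ℕ) : (KK M).card = 4 * (M + 1) ^ 24 := by
  simp only [KK, Finset.card_product, Finset.card_univ, Fintype.card_bool,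
    Fintype.card_piFinset, Finset.card_range, Finset.prod_const, Fintype.card_fin]
  ring

theorem key_mem {X : ℕ} {f : ℕ → Fin 7 → ℕ} (hf : Fac f) {t : ℕ × ℕ × ℕ} (ht : t ∈ Tr X) :
    key f t ∈ KK (Nat.log 2 X) := by
  simp only [KK, key, Finset.mem_product, Finset.mem_univ, true_and, Fintype.mem_piFinset,
    Finset.mem_range]
  refine ⟨fun j i => ?_, fun j => ?_⟩
  · exact Nat.lt_succ_of_le (Nat.log_mono_right (uu_le hf ht j i))
  · exact Nat.lt_succ_of_le
      (Nat.log_mono_right ((rd_le (uu_pos hf ht j 6)).trans (uu_le hf ht j 6)))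

theorem keys_le (ε : ℝ) (hε : 0 < ε) : ∃ C : ℝ, ∀ X : ℕ, 1 ≤ X →
    ((4 * (Nat.log 2 X + 1) ^ 24 : ℕ) : ℝ) ≤ C * (X : ℝ) ^ ε := by
  set η : ℝ := ε / 24 with hη
  have hη0 : 0 < η := by positivity
  have hl2 : 0 < Real.log 2 := Real.log_pos (by norm_num)
  refine ⟨4 * (1 / (η * Real.log 2) + 1) ^ 24, fun X hX => ?_⟩
  have hX1 : (1 : ℝ) ≤ X := by exact_mod_cast hX
  have hX0 : (0 : ℝ) < X := by linarith
  have h1 : (1 : ℝ) ≤ (X : ℝ) ^ η := Real.one_le_rpow hX1 hη0.le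
  have h2 : (Nat.log 2 X : ℝ) * Real.log 2 ≤ Real.log X := by
    have h : 2 ^ Nat.log 2 X ≤ X := Nat.pow_log_le_self 2 (by omega)
    have h' : ((2 : ℝ) ^ Nat.log 2 X) ≤ X := by exact_mod_cast h
    have := Real.log_le_log (by positivity) h'
    rwa [Real.log_pow] at this
  have h3 : Real.log X ≤ (X : ℝ) ^ η / η := Real.log_le_rpow_div hX0.le hη0
  have h4 : (Nat.log 2 X : ℝ) ≤ 1 / (η * Real.log 2) * (X : ℝ) ^ η := by
    rw [div_mul_eq_mul_div, one_mul, le_div_iff₀ (by positivity)]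
    have := mul_le_mul_of_nonneg_right (h2.trans h3) hη0.le
    rw [div_mul_cancel₀ _ hη0.ne'] at this
    linarith
  have h5 : (Nat.log 2 X : ℝ) + 1 ≤ (1 / (η * Real.log 2) + 1) * (X : ℝ) ^ η := by
    rw [add_mul, one_mul]; linarith
  have h6 : ((Nat.log 2 X : ℝ) + 1) ^ 24 ≤ ((1 / (η * Real.log 2) + 1) * (X : ℝ) ^ η) ^ 24 :=
    pow_le_pow_left₀ (by positivity) h5 24
  have h7 : ((X : ℝ) ^ η) ^ 24 = (X : ℝ) ^ ε := by
    rw [← Real.rpow_natCast, ← Real.rpow_mul hX0.le]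
    congr 1
    rw [hη]; push_cast; ring
  rw [mul_pow, h7] at h6
  push_cast
  linarith

theorem log_close {a b : ℕ} (_ha : 0 < a) (hb : 0 < b) (h : Nat.log 2 a = Nat.log 2 b) :
    a ≤ 2 * b := by
  have h1 : a < 2 ^ (Nat.log 2 a + 1) := Nat.lt_pow_succ_log_self (by norm_num) a
  have h2 : 2 ^ Nat.log 2 b ≤ b := Nat.pow_log_le_self 2 hb.ne'
  rw [h, pow_succ] at h1
  omega

theorem abs_log_close {a b : ℕ} (ha : 0 < a) (hb : 0 < b) (h : Nat.log 2 a = Nat.log 2 b) :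
    |Real.log a - Real.log b| ≤ Real.log 2 := by
  have ha' : (0 : ℝ) < a := by exact_mod_cast ha
  have hb' : (0 : ℝ) < b := by exact_mod_cast hb
  have h1 : (a : ℝ) ≤ 2 * b := by exact_mod_cast log_close ha hb h
  have h2 : (b : ℝ) ≤ 2 * a := by exact_mod_cast log_close hb ha h.symm
  have h3 := Real.log_le_log ha' h1
  have h4 := Real.log_le_log hb' h2
  rw [Real.log_mul (by norm_num) hb'.ne'] at h3
  rw [Real.log_mul (by norm_num) ha'.ne'] at h4
  rw [abs_le]; constructor <;> linarith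

theorem card_dyadic {A : Finset ℕ} {b : ℕ} (hb : 0 < b)
    (h : ∀ a ∈ A, 0 < a ∧ Nat.log 2 a = Nat.log 2 b) : A.card ≤ b := by
  have h1 : A ⊆ Ico (2 ^ Nat.log 2 b) (2 ^ (Nat.log 2 b + 1)) := by
    intro a ha
    obtain ⟨h0, h2⟩ := h a ha
    rw [Finset.mem_Ico, ← h2]
    exact ⟨Nat.pow_log_le_self 2 h0.ne', Nat.lt_pow_succ_log_self (by norm_num) a⟩
  have h2 := Finset.card_le_card h1
  rw [Nat.card_Ico, pow_succ] at h2
  have h3 : 2 ^ Nat.log 2 b ≤ b := Nat.pow_log_le_self 2 hb.ne'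
  omega

/-- The logarithms of the numbers of values. -/
noncomputable def rr (u : Fin 3 → Fin 7 → ℕ) : Fin 3 → Fin 7 → ℝ :=
  fun j i => if i = 6 then Real.log (rd (u j 6)) else Real.log (u j i)

/-- The logarithmic sizes. -/
noncomputable def ss (u : Fin 3 → Fin 7 → ℕ) (d : Fin 3 → ℝ) : Fin 3 → Fin 7 → ℝ :=
  fun j i => (ex1 i : ℝ) * Real.log (u j i) + if i = 6 then d j else 0

theorem sum_rr {X : ℕ} {f : ℕ → Fin 7 → ℕ} (hf : Fac f) {t : ℕ × ℕ × ℕ} (ht : t ∈ Tr X)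
    (j : Fin 3) : ∑ i, rr (uu f t) j i = Real.log (W f (NN f t j)) := by
  unfold W
  push_cast
  rw [Real.log_prod]
  · refine Finset.sum_congr rfl (fun i _ => ?_)
    unfold rr
    by_cases h : i = 6
    · simp only [h, if_true]; rfl
    · simp only [h, if_false]; rfl
  · intro i _
    by_cases h : i = 6
    · simp only [h, if_true]
      exact_mod_cast (rd_pos _).ne'
    · simp only [h, if_false]
      exact_mod_cast (uu_pos hf ht j i).ne'

theorem W_pos {X : ℕ} {f : ℕ → Fin 7 → ℕ} (hf : Fac f) {t : ℕ × ℕ × ℕ} (ht : t ∈ Tr X)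
    (j : Fin 3) : 0 < W f (NN f t j) := by
  unfold W
  refine Finset.prod_pos (fun i _ => ?_)
  by_cases h : i = 6
  · simp only [h, if_true]; exact rd_pos _
  · simp only [h, if_false]; exact uu_pos hf ht j i

theorem sum_ss {X : ℕ} {f : ℕ → Fin 7 → ℕ} (hf : Fac f) {t : ℕ × ℕ × ℕ} (ht : t ∈ Tr X)
    (d : Fin 3 → ℝ) (j : Fin 3) : ∑ i, ss (uu f t) d j i = Real.log (NN f t j) + d j := by
  unfold ss
  rw [Finset.sum_add_distrib, ← nm_uu hf ht j]
  congr 1
  · unfold nm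
    push_cast
    rw [Real.log_prod]
    · refine Finset.sum_congr rfl (fun i _ => ?_)
      rw [Real.log_pow]
    · intro i _
      have : (0 : ℝ) < uu f t j i := by exact_mod_cast uu_pos hf ht j i
      positivity
  · rw [Finset.sum_ite_eq' univ (6 : Fin 7) (fun _ => d j)]
    simp

/-- The correction. -/
noncomputable def dd (f : ℕ → Fin 7 → ℕ) (t : ℕ × ℕ × ℕ) : Fin 3 → ℝ :=
  fun j => if j = 0 then 0 else Real.log (t.2.2 : ℕ) - Real.log (NN f t j)

theorem dd_nonneg {X : ℕ} (f : ℕ → Fin 7 → ℕ) {t : ℕ × ℕ × ℕ} (ht : t ∈ Tr X) (j : Fin 3) :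
    0 ≤ dd f t j := by
  unfold dd
  split_ifs
  · exact le_rfl
  · have h0 : (0 : ℝ) < NN f t j := by exact_mod_cast NN_pos f ht j
    have h1 : (NN f t j : ℝ) ≤ (t.2.2 : ℕ) := by exact_mod_cast NN_le f ht j
    have := Real.log_le_log h0 h1
    linarith

theorem dd_le {X : ℕ} (f : ℕ → Fin 7 → ℕ) {t : ℕ × ℕ × ℕ} (ht : t ∈ Tr X) (j : Fin 3) :
    dd f t j ≤ Real.log 2 := by
  unfold dd
  split_ifs with h
  · exact (Real.log_pos (by norm_num)).le
  · obtain ⟨h1, h2, _, h4, _, _⟩ := mem_Tr ht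
    have h0 : (0 : ℝ) < NN f t j := by exact_mod_cast NN_pos f ht j
    have h5 : t.2.2 ≤ 2 * NN f t j := by
      fin_cases j
      · exact absurd rfl h
      · simp only [NN]; cases fl f t <;> simp <;> omega
      · simp only [NN]; cases fl f t <;> simp <;> omega
    have h6 : ((t.2.2 : ℕ) : ℝ) ≤ 2 * NN f t j := by exact_mod_cast h5
    have h7 : (0 : ℝ) < (t.2.2 : ℕ) := by exact_mod_cast (by omega : 0 < t.2.2)
    have := Real.log_le_log h7 h6
    rw [Real.log_mul (by norm_num) h0.ne'] at this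
    linarith

theorem feas {X : ℕ} {f : ℕ → Fin 7 → ℕ} (hf : Fac f) {t : ℕ × ℕ × ℕ} (ht : t ∈ Tr X) :
    Feas (rr (uu f t)) (ss (uu f t) (dd f t)) (Real.log (t.2.2 : ℕ)) := by
  have hW : ∀ j, (0 : ℝ) < W f (NN f t j) := fun j => by exact_mod_cast W_pos hf ht j
  refine ⟨fun j i => ?_, fun j i hi => ?_, fun j => ?_, ?_, ?_, ?_, ?_, ?_⟩
  · unfold rr
    split_ifs <;> exact Real.log_natCast_nonneg _
  · simp only [ss, rr, hi, if_false, add_zero]
  · have h1 : rd (uu f t j 6) ^ 7 ≤ uu f t j 6 := (hf _ (NN_pos f ht j)).2.2.2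
    have h2 : ((rd (uu f t j 6) : ℝ)) ^ 7 ≤ uu f t j 6 := by exact_mod_cast h1
    have h3 : (0 : ℝ) < rd (uu f t j 6) := by exact_mod_cast rd_pos _
    have h4 := Real.log_le_log (by positivity) h2
    rw [Real.log_pow] at h4
    have h5 := dd_nonneg f ht j
    have h6 : (ex1 6 : ℝ) = 1 := by simp [ex1]
    simp only [ss, rr, if_true, h6]
    push_cast at h4
    linarith
  · rw [Fin.sum_univ_three, sum_rr hf ht, sum_rr hf ht, sum_rr hf ht,
      ← Real.log_mul (hW 0).ne' (hW 1).ne',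
      ← Real.log_mul (mul_pos (hW 0) (hW 1)).ne' (hW 2).ne']
    refine Real.log_le_log (mul_pos (mul_pos (hW 0) (hW 1)) (hW 2)) ?_
    have h0 : ∀ j, W f (NN f t j) ≤ rd (NN f t j) := fun j => (hf _ (NN_pos f ht j)).2.2.1
    have h1 : W f (NN f t 0) * W f (NN f t 1) * W f (NN f t 2) ≤ t.2.2 :=
      (Nat.mul_le_mul (Nat.mul_le_mul (h0 0) (h0 1)) (h0 2)).trans (NN_prod f ht)
    exact_mod_cast h1
  · rw [sum_rr hf ht, sum_rr hf ht]
    exact Real.log_le_log (hW 1) (by exact_mod_cast NN_sym f t)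
  · rw [sum_ss hf ht]
    have h0 : (0 : ℝ) < NN f t 0 := by exact_mod_cast NN_pos f ht 0
    have h1 : (NN f t 0 : ℝ) ≤ (t.2.2 : ℕ) := by exact_mod_cast NN_le f ht 0
    have := Real.log_le_log h0 h1
    simp only [dd, if_true]
    linarith
  · rw [sum_ss hf ht]
    simp [dd]
  · rw [sum_ss hf ht]
    simp [dd]

theorem setup : FactorStmt → TailStmt → SetupStmt := by
  classical
  intro hF hT ε hε
  have hF' : ∀ n : ℕ, ∃ u : Fin 7 → ℕ, 0 < n → (∀ i, 0 < u i) ∧ ∏ i, u i ^ ex1 i = n ∧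
      (∏ i, if i = 6 then rd (u 6) else u i) ≤ rd n ∧ rd (u 6) ^ 7 ≤ u 6 := by
    intro n
    by_cases hn : 0 < n
    · obtain ⟨u, hu⟩ := hF n hn
      exact ⟨u, fun _ => hu⟩
    · exact ⟨fun _ => 1, fun h => absurd h hn⟩
  choose f hf using hF'
  have hf' : Fac f := hf
  obtain ⟨C1, hC1, hT1⟩ := hT ε hε
  obtain ⟨C2, hK⟩ := keys_le ε hε
  refine ⟨max (Real.exp 5) (max (2 * C1) C2), ?_, fun X E hX hE hD hDet => ?_⟩
  · exact le_max_of_le_left (Real.one_le_exp (by norm_num))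
  have hX1 : (1 : ℝ) ≤ X := by exact_mod_cast hX
  have hXe : (1 : ℝ) ≤ (X : ℝ) ^ ε := Real.one_le_rpow hX1 hε.le
  have hE5 : 5 ≤ E := by
    have h1 : Real.exp 5 ≤ Real.exp E := by
      refine le_trans ?_ hE
      calc Real.exp 5 ≤ max (Real.exp 5) (max (2 * C1) C2) := le_max_left _ _
        _ = max (Real.exp 5) (max (2 * C1) C2) * 1 := (mul_one _).symm
        _ ≤ _ := mul_le_mul_of_nonneg_left hXe
            (le_max_of_le_left (Real.exp_pos 5).le)
    exact Real.exp_le_exp.mp h1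
  have hE1 : 2 * C1 * (X : ℝ) ^ ε ≤ Real.exp E :=
    le_trans (mul_le_mul_of_nonneg_right (le_max_of_le_right (le_max_left _ _))
      (by positivity)) hE
  have hE2 : C2 * (X : ℝ) ^ ε ≤ Real.exp E :=
    le_trans (mul_le_mul_of_nonneg_right (le_max_of_le_right (le_max_right _ _))
      (by positivity)) hE
  have hl2 : Real.log 2 ≤ 7 / 10 := by
    have := Real.log_two_lt_d9
    linarith
  have hl2' : 0 < Real.log 2 := Real.log_pos (by norm_num)
  rcases (Tr X).eq_empty_or_nonempty with h0 | h0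
  · refine ⟨∅, fun _ => 1, fun _ _ => 0, fun _ _ => 0, 0, ?_, ?_, Real.log_nonneg hX1, ?_⟩
    · refine ⟨fun _ => Or.inl rfl, by linarith, by simp, by simp, by simp, by simp, ?_, by simp,
        by simp, by simp, by simp, hD, hDet⟩
      intro j i
      simp only [Finset.image_empty, Finset.card_empty, Nat.cast_zero]
      exact (Real.exp_pos _).le
    · exact ⟨fun _ _ => le_rfl, fun _ _ _ => by simp, fun _ => by simp, by simp, by simp,
        by simp, by simp, by simp⟩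
    · rw [h0]; simp
  obtain ⟨t, ht, hmax⟩ := Finset.exists_max_image (Tr X)
    (fun t => ((Tr X).filter (fun x => key f x = key f t)).card) h0
  set F := (Tr X).filter (fun x => key f x = key f t) with hFd
  have hFm : ∀ x ∈ F, x ∈ Tr X ∧ key f x = key f t := fun x hx => Finset.mem_filter.mp hx
  have hSm : ∀ u ∈ F.image (uu f), ∃ x, x ∈ Tr X ∧ key f x = key f t ∧ uu f x = u := by
    intro u hu
    obtain ⟨x, hx, rfl⟩ := Finset.mem_image.mp hu
    exact ⟨x, (hFm x hx).1, (hFm x hx).2, rfl⟩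
  have hfe := feas hf' ht
  refine ⟨F.image (uu f), sg (fl f t), rr (uu f t), ss (uu f t) (dd f t),
    Real.log (t.2.2 : ℕ), ?_, hfe, ?_, ?_⟩
  · refine ⟨fun j => ?_, by linarith, ?_, ?_, ?_, ?_, ?_, ?_, hfe.s0, hfe.s1, hfe.s2, hD, hDet⟩
    · fin_cases j <;> simp only [sg] <;> cases fl f t <;> simp
    · intro u hu j i
      obtain ⟨x, hx, _, rfl⟩ := hSm u hu
      exact uu_pos hf' hx j i
    · intro u hu
      obtain ⟨x, hx, hk, rfl⟩ := hSm u hu
      have k2 : fl f x = fl f t := congrArg (fun x => x.2.1) hk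
      rw [← k2]
      simp only [nm_uu hf' hx]
      exact NN_eqn f hx
    · intro u hu j l hjl
      obtain ⟨x, hx, _, rfl⟩ := hSm u hu
      rw [nm_uu hf' hx, nm_uu hf' hx]
      exact NN_cop f hx j l hjl
    · intro u hu j
      obtain ⟨x, hx, _, rfl⟩ := hSm u hu
      rw [nm_uu hf' hx]
      exact (NN_le f hx j).trans (mem_Tr hx).2.2.1
    · intro j i
      rw [Real.exp_add]
      by_cases hi : i = 6
      · subst hi
        have h1 : (F.image (uu f)).image (fun u => u j 6) ⊆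
            (Icc 1 X).filter (fun v => rd v ≤ 2 * rd (uu f t j 6)) := by
          intro v hv
          obtain ⟨u, hu, rfl⟩ := Finset.mem_image.mp hv
          obtain ⟨x, hx, hk, rfl⟩ := hSm u hu
          have k4 : Nat.log 2 (rd (uu f x j 6)) = Nat.log 2 (rd (uu f t j 6)) :=
            congrFun (congrArg (fun x => x.2.2.2) hk) j
          rw [Finset.mem_filter, Finset.mem_Icc]
          exact ⟨⟨uu_pos hf' hx j 6, uu_le hf' hx j 6⟩, log_close (rd_pos _) (rd_pos _) k4⟩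
        have h2 := hT1 X (2 * rd (uu f t j 6)) hX
        have h3 : (((F.image (uu f)).image (fun u => u j 6)).card : ℝ) ≤
            (((Icc 1 X).filter (fun v => rd v ≤ 2 * rd (uu f t j 6))).card : ℝ) := by
          exact_mod_cast Finset.card_le_card h1
        have h4 : (0 : ℝ) < rd (uu f t j 6) := by exact_mod_cast rd_pos _
        simp only [rr, if_true]
        rw [Real.exp_log h4]
        push_cast at h2
        have h5 := mul_le_mul_of_nonneg_left hE1 h4.le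
        calc _ ≤ _ := h3
          _ ≤ _ := h2
          _ = rd (uu f t j 6) * (2 * C1 * (X : ℝ) ^ ε) := by ring
          _ ≤ _ := h5
      · have h1 : ((F.image (uu f)).image (fun u => u j i)).card ≤ uu f t j i := by
          refine card_dyadic (uu_pos hf' ht j i) (fun v hv => ?_)
          obtain ⟨u, hu, rfl⟩ := Finset.mem_image.mp hv
          obtain ⟨x, hx, hk, rfl⟩ := hSm u hu
          exact ⟨uu_pos hf' hx j i, congrFun (congrFun (congrArg (fun x => x.2.2.1) hk) j) i⟩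
        have h4 : (0 : ℝ) < uu f t j i := by exact_mod_cast uu_pos hf' ht j i
        simp only [rr, hi, if_false]
        rw [Real.exp_log h4]
        have h2 : (((F.image (uu f)).image (fun u => u j i)).card : ℝ) ≤ uu f t j i := by
          exact_mod_cast h1
        have h3 : (1 : ℝ) ≤ Real.exp E := Real.one_le_exp (by linarith)
        nlinarith
    · intro u hu j i
      obtain ⟨x, hx, hk, rfl⟩ := hSm u hu
      have k3 : Nat.log 2 (uu f x j i) = Nat.log 2 (uu f t j i) :=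
        congrFun (congrFun (congrArg (fun x => x.2.2.1) hk) j) i
      have h1 := abs_le.mp (abs_log_close (uu_pos hf' hx j i) (uu_pos hf' ht j i) k3)
      have h2 : (ex1 i : ℝ) ≤ 6 := by exact_mod_cast ex1_le i
      have h3 : (0 : ℝ) ≤ ex1 i := Nat.cast_nonneg _
      have h4 := dd_nonneg f ht j
      have h5 := dd_le f ht j
      have h6 : (ex1 i : ℝ) * (Real.log (uu f x j i) - Real.log (uu f t j i)) ≤
          6 * Real.log 2 := by nlinarith [h1.1, h1.2]
      have h7 : -(6 * Real.log 2) ≤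
          (ex1 i : ℝ) * (Real.log (uu f x j i) - Real.log (uu f t j i)) := by
        nlinarith [h1.1, h1.2]
      simp only [ss]
      rw [abs_le]
      split_ifs <;> constructor <;> linarith
  · have h7 : (0 : ℝ) < (t.2.2 : ℕ) := by
      obtain ⟨h1, _, _, h4, _, _⟩ := mem_Tr ht
      exact_mod_cast (by omega : 0 < t.2.2)
    exact Real.log_le_log h7 (by exact_mod_cast (mem_Tr ht).2.2.1)
  · have h1 : (F.image (uu f)).card = F.card := by
      refine Finset.card_image_of_injOn (fun x hx y hy hxy => ?_)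
      have hx' := hFm x hx
      have hy' := hFm y hy
      exact inj_key hf' hx'.1 hy'.1 (hx'.2.trans hy'.2.symm) hxy
    have h2 : (Tr X).card ≤ F.card * ((Tr X).image (key f)).card := by
      refine Finset.card_le_mul_card_image (Tr X) F.card (fun k hk => ?_)
      obtain ⟨x, hx, rfl⟩ := Finset.mem_image.mp hk
      exact hmax x hx
    have h3 : ((Tr X).image (key f)).card ≤ 4 * (Nat.log 2 X + 1) ^ 24 := by
      rw [← card_KK]
      refine Finset.card_le_card (fun k hk => ?_)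
      obtain ⟨x, hx, rfl⟩ := Finset.mem_image.mp hk
      exact key_mem hf' hx
    have h4 : (Tr X).card ≤ (4 * (Nat.log 2 X + 1) ^ 24) * F.card := by
      rw [mul_comm]; exact h2.trans (Nat.mul_le_mul_left _ h3)
    have h5 : ((Tr X).card : ℝ) ≤ ((4 * (Nat.log 2 X + 1) ^ 24 : ℕ) : ℝ) * F.card := by
      exact_mod_cast h4
    rw [h1]
    exact h5.trans (mul_le_mul_of_nonneg_right ((hK X hX).trans hE2) (Nat.cast_nonneg _))

end Pool.Agent.MP_542436_nt.H17
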